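import Mathlib
import Pool.Agent.Helper31.UniqSets

/-!
Q2 of MP_462cdc_an, answered in the negative over both scalar fields.

The space is the set of pairs `(u, v)` in the `ℓ¹`-sum of two copies of `ℓ²` with `u - v` a
multiple of the first unit vector.
-/

set_option autoImplicit false

namespace Pool.Agent.Results.MP_462cdc_an.NonmeagreNotStrictlyConvex

/-- Over `𝕜 = ℝ` or `ℂ` there is a Banach space which is not strictly convex but in which, for
every compact set `G`, the set of points with at most one nearest point in `G` is of the second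
category. -/
theorem result (𝕜 : Type) [RCLike 𝕜] :
    ∃ (E : Type) (_ : NormedAddCommGroup E) (_ : NormedSpace 𝕜 E), CompleteSpace E ∧
      ¬ (∀ x y : E, ‖x‖ = 1 → ‖y‖ = 1 → x ≠ y → ‖(2⁻¹ : 𝕜) • (x + y)‖ < 1) ∧
      ∀ G : Set E, IsCompact G →
        ¬ IsMeagre
          {x : E | {g : E | g ∈ G ∧ ‖x - g‖ = ⨅ h : G, ‖x - (h : E)‖}.Subsingleton} := by
  obtain ⟨e, he⟩ := Helper31.UniqSets.exists_unit 𝕜
  have hcomp : CompleteSpace (Helper31.UniqSets.Esub 𝕜 e) :=
    (Helper31.UniqSets.isClosed_Esub (𝕜 := 𝕜) e).completeSpace_coe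
  refine ⟨Helper31.UniqSets.Esub 𝕜 e, inferInstance, inferInstance, hcomp, ?_, ?_⟩
  · intro h
    obtain ⟨x, y, hx, hy, hxy, h1⟩ := Helper31.UniqSets.Esub_not_strict (𝕜 := 𝕜) e he
    have h2 := h x y hx hy hxy
    rw [h1] at h2
    exact lt_irrefl _ h2
  · intro G hG
    have h := Helper31.UniqSets.not_isMeagre_uniq (𝕜 := 𝕜) (Helper31.UniqSets.Ksub 𝕜 e)
      (Helper31.UniqSets.Esub_infinite (𝕜 := 𝕜) e (Helper31.UniqSets.l2_infinite 𝕜))
      (fun x y hx hxy => Helper31.UniqSets.Esub_segments (𝕜 := 𝕜) x y hx hxy) hG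
    have heq : Helper31.UniqSets.uniq G = {x : Helper31.UniqSets.Esub 𝕜 e |
        {g : Helper31.UniqSets.Esub 𝕜 e | g ∈ G ∧ ‖x - g‖ =
          ⨅ h : G, ‖x - (h : Helper31.UniqSets.Esub 𝕜 e)‖}.Subsingleton} := by
      unfold Helper31.UniqSets.uniq
      simp only [Metric.infDist_eq_iInf, dist_eq_norm]
    rw [← heq]
    exact h

end Pool.Agent.Results.MP_462cdc_an.NonmeagreNotStrictlyConvex
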